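import Pool.Agent.Q235.FE.One

/-!
# The original products of Birch and Swinnerton-Dyer of the twists by integers with few changed digits

`E : y² = x³ + a x + b` is an elliptic curve over `ℚ`, `a, b ∈ ℤ`, `E_d : y² = x³ + a d² x + b d³` is its quadratic twist
by `d`, and `P_d(x) = ∏_{p ≤ x} #E_d(𝔽_p) / p` (primes of bad reduction and `p = 2` left out) is the product which should be
asymptotic to `C (log x)^r`, `r` the rank of `E_d`, as `x → ∞`.

Let `N` be an ARBITRARY integer with at most `K` digits in base `β`, and let `m` arise from `N` by changing `r ≤ K / 2` of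
its digits, to prescribed digits different from the old ones.  We show: for all but a proportion `η` of the choices of the
`r` positions the products of the twists by `d = m` and `d = -m` satisfy

  `(log x)^(1/2 - ε) ≤ P_d(x) ≤ (log x)^(1/2 + ε)` for ALL `x` with `X₀ ≤ x ≤ exp (c √r)`,

and the products of the twists by the values `D(t) = t³ + a t + b` at `t = m` and `t = -m`, which have the rational point
`(t D(t), D(t)²)`, the same with the exponent `3/2` instead of `1/2`.  Here `X₀` depends only on `E`, `β`, `ε` and `η`, and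
`c` only on `β`.  The theorem is unconditional; that `f` is the newform of `E` is used through Rankin's and Selberg's
theorem only.
-/

set_option autoImplicit false

namespace Pool.Agent.Results.MP_3283e1_nt.FewDigitTwists

open Pool.Agent.W263.BSD (GoodPrime pointCount)
open Pool.Agent.Q235.FD (digit)
open Pool.Agent.Q235.FE (bad bad_mono bad_and)
open Filter Topology CongruenceSubgroup UpperHalfPlane
open scoped MatrixGroups Classical

/-- The product of `(N_p + 1) / p` over the primes `p ≤ x`, `p ∤ 2Δ`, for `y² = x³ + a x + b`; here `N_p`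
is the number of affine points modulo `p`, so `N_p + 1 = #E(𝔽_p)`. -/
noncomputable def product (a b : ℤ) (x : ℕ) : ℝ :=
  ∏ p ∈ (Finset.range (x + 1)).filter (GoodPrime a b), (((pointCount a b p : ℝ) + 1) / p)

/-- The `n`-th Fourier coefficient of `f`. -/
noncomputable def coef {N : ℕ} (f : CuspForm (Gamma0 N : Subgroup (GL (Fin 2) ℝ)) 2) (n : ℕ) : ℂ :=
  (qExpansion 1 f).coeff n

/-- `f ∈ S_2(Γ₀(N))` is the newform of the elliptic curve `E : y² = x³ + a x + b` of conductor `N`: the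
Fourier coefficients `c(n)` of `f` are real with `c(1) = 1`, they satisfy the Hecke relations
`c(mn) = c(m) c(n)` for coprime `m`, `n` and `c(p^(j+2)) = c(p) c(p^(j+1)) - p c(p^j)` (without the last
term if `p ∣ N`), `c(p) = a_p = p - N_p` (`N_p` affine points) for all primes `p ∤ 2Δ`, `|c(p)| ≤ 2 √p` for
all `p ∤ N` (Hasse) and `c(p) = 0, 1, -1` for `p ∣ N`. (It exists by the modularity theorem.) -/
structure IsNewformOf (a b : ℤ) (N : ℕ) (f : CuspForm (Gamma0 N : Subgroup (GL (Fin 2) ℝ)) 2) :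
    Prop where
  one : coef f 1 = 1
  real : ∀ n, (coef f n).im = 0
  mul : ∀ m n : ℕ, Nat.Coprime m n → coef f (m * n) = coef f m * coef f n
  pow : ∀ p j : ℕ, p.Prime → coef f (p ^ (j + 2)) = coef f p * coef f (p ^ (j + 1)) -
      (if p ∣ N then 0 else (p : ℂ) * coef f (p ^ j))
  points : ∀ p : ℕ, GoodPrime a b p → coef f p = (p : ℂ) - (pointCount a b p : ℂ)
  good : ∀ p : ℕ, p.Prime → ¬ p ∣ N → ‖coef f p‖ ≤ 2 * Real.sqrt p
  bad : ∀ p : ℕ, p.Prime → p ∣ N → coef f p = 0 ∨ coef f p = 1 ∨ coef f p = -1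

theorem hecke {a b : ℤ} {N : ℕ} {f : CuspForm (Gamma0 N : Subgroup (GL (Fin 2) ℝ)) 2}
    (hf : IsNewformOf a b N f) : Pool.Agent.TH941.Hecke f where
  one := hf.one
  real := hf.real
  mul := hf.mul
  pow := hf.pow
  good := hf.good
  bad := fun p hp h => by
    rcases hf.bad p hp h with h1 | h1 | h1
    · have h2 : ‖coef f p‖ ≤ 1 := by rw [h1]; simp
      exact h2
    · have h2 : ‖coef f p‖ ≤ 1 := by rw [h1]; simp
      exact h2
    · have h2 : ‖coef f p‖ ≤ 1 := by rw [h1]; simp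
      exact h2

/-- The product `P(x)` of the twist of `y² = x³ + a x + b` by `d` satisfies
`(log x)^(κ - ε) ≤ P(x) ≤ (log x)^(κ + ε)`. -/
def Grows (a b : ℤ) (κ ε : ℝ) (d : ℤ) (x : ℕ) : Prop :=
  Real.log x ^ (κ - ε) ≤ product (a * d ^ 2) (b * d ^ 3) x ∧
    product (a * d ^ 2) (b * d ^ 3) x ≤ Real.log x ^ (κ + ε)

lemma grows_of {a b d : ℤ} {κ ε : ℝ} {x : ℕ} (hx : 16 ≤ x)
    (h : |∑ p ∈ (Finset.range (x + 1)).filter Nat.Prime, Pool.Agent.Q28.BP.lg (a * d ^ 2) (b * d ^ 3) p -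
      κ * Real.log (Real.log x)| ≤ ε * Real.log (Real.log x)) : Grows a b κ ε d x := by
  obtain ⟨h3, h4⟩ := Pool.Agent.Q28.BP.log_prod (a * d ^ 2) (b * d ^ 3) x
  rw [← h4] at h
  exact Pool.Agent.Q28.BP.pow_bounds h3 (by omega) rfl h

/-- **The products of the twists by integers with few changed digits.**  Let `β ≥ 2` be a base.  There is `c > 0` such
that for every elliptic curve `E : y² = x³ + a x + b` with newform `f` and all `ε, η > 0` there is `X₀` such that for all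
integers `N₀` with at most `K` digits in base `β`, all `r ≤ K / 2` and all prescribed new digits `g j` (different from the
digits of `N₀`) the following holds for all choices of `r` positions except for a proportion of at most `η`: for the
number `m` obtained and all `x ≥ X₀` with `log x ≤ c √r`

1. `(log x)^(1/2 - ε) ≤ P_d(x) ≤ (log x)^(1/2 + ε)` for the twists by `d = m` and `d = -m`;
2. `(log x)^(3/2 - ε) ≤ P_d(x) ≤ (log x)^(3/2 + ε)` for the twists by `d = t³ + a t + b`, `t = m` and `t = -m`. -/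
theorem result (β : ℕ) (hβ : 2 ≤ β) : ∃ c : ℝ, 0 < c ∧ ∀ (a b : ℤ), 4 * a ^ 3 + 27 * b ^ 2 ≠ 0 →
    ∀ (N : ℕ) [NeZero N] (f : CuspForm (Gamma0 N : Subgroup (GL (Fin 2) ℝ)) 2), IsNewformOf a b N f →
    ∀ ε η : ℝ, 0 < ε → 0 < η → ∃ X₀ : ℕ, ∀ (K r N₀ : ℕ) (g : ℕ → ℕ), 2 * r ≤ K → N₀ < β ^ K →
      (∀ j, g j < β ∧ g j ≠ digit β j N₀) →
      (bad β K r N₀ g (fun m => ∀ x : ℕ, X₀ ≤ x → Real.log x ≤ c * Real.sqrt r →
        (Grows a b (1 / 2) ε m x ∧ Grows a b (1 / 2) ε (-m) x) ∧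
        Grows a b (3 / 2) ε ((m : ℤ) ^ 3 + a * m + b) x ∧ Grows a b (3 / 2) ε ((-m : ℤ) ^ 3 + a * (-m) + b) x) : ℝ) ≤
          η * (K.choose r : ℝ) := by
  obtain ⟨c, hc, H⟩ := Pool.Agent.Q235.FE.twist_one β hβ
  refine ⟨c, hc, fun a b hΔ N _ f hf ε η hε hη => ?_⟩
  have hrs : Tendsto (Pool.Agent.W263.BSD.rsSum a b) atTop (𝓝 0) :=
    (hecke hf).rsSum_tendsto hΔ fun p hp => hf.points p hp
  have hX : ∀ D : Polynomial ℤ, D = Polynomial.X ∨ D = -Polynomial.X → ∀ p, GoodPrime a b p →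
      |Pool.Agent.Q28.BP.nu (Pool.Agent.Q28.BP.twA a D) (Pool.Agent.Q28.BP.twB b D) p -
        (1 / 2 / p + -(1 / 2) * Pool.Agent.Q28.BP.rho a b p)| ≤ 6 / (p : ℝ) ^ 2 := by
    intro D hD p hg
    refine le_trans (le_of_eq ?_) (Pool.Agent.Q28.BP.nu_all hg D hD)
    congr 1
    ring
  have hS : ∀ D : Polynomial ℤ, (D = Polynomial.X ^ 3 + Polynomial.C a * Polynomial.X + Polynomial.C b ∨
      D = -Polynomial.X ^ 3 - Polynomial.C a * Polynomial.X + Polynomial.C b) → ∀ p, GoodPrime a b p →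
      |Pool.Agent.Q28.BP.nu (Pool.Agent.Q28.BP.twA a D) (Pool.Agent.Q28.BP.twB b D) p -
        (3 / 2 / p + 1 / 2 * Pool.Agent.Q28.BP.rho a b p)| ≤ 30 / (p : ℝ) ^ 2 := by
    intro D hD p hg
    refine le_trans (le_of_eq ?_) (Pool.Agent.Q28.BP.nu_self hg D hD)
    congr 1
    ring
  obtain ⟨X₁, h1, H1⟩ := H hΔ hrs Polynomial.X (1 / 2) (-(1 / 2)) 6 (by norm_num) (by norm_num) (hX _ (Or.inl rfl))
    ε (η / 4) hε (by positivity)
  obtain ⟨X₂, h2, H2⟩ := H hΔ hrs (-Polynomial.X) (1 / 2) (-(1 / 2)) 6 (by norm_num) (by norm_num) (hX _ (Or.inr rfl))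
    ε (η / 4) hε (by positivity)
  obtain ⟨X₃, h3, H3⟩ := H hΔ hrs _ (3 / 2) (1 / 2) 30 (by norm_num) (by norm_num) (hS _ (Or.inl rfl))
    ε (η / 4) hε (by positivity)
  obtain ⟨X₄, h4, H4⟩ := H hΔ hrs _ (3 / 2) (1 / 2) 30 (by norm_num) (by norm_num) (hS _ (Or.inr rfl))
    ε (η / 4) hε (by positivity)
  obtain ⟨X, hX⟩ : ∃ X, X = max (max X₁ X₂) (max X₃ X₄) := ⟨_, rfl⟩
  have k1 : X₁ ≤ X := by rw [hX]; exact (le_max_left _ _).trans (le_max_left _ _)
  have k2 : X₂ ≤ X := by rw [hX]; exact (le_max_right _ _).trans (le_max_left _ _)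
  have k3 : X₃ ≤ X := by rw [hX]; exact (le_max_left _ _).trans (le_max_right _ _)
  have k4 : X₄ ≤ X := by rw [hX]; exact (le_max_right _ _).trans (le_max_right _ _)
  refine ⟨X, fun K r N₀ g hr hN hg => ?_⟩
  have g1 := H1 K r N₀ g hr hN hg
  have g2 := H2 K r N₀ g hr hN hg
  have g3 := H3 K r N₀ g hr hN hg
  have g4 := H4 K r N₀ g hr hN hg
  obtain ⟨P1, hP1⟩ : ∃ P : ℕ → Prop, P = fun (m : ℕ) => ∀ x : ℕ, X₁ ≤ x → Real.log x ≤ c * Real.sqrt r →
    |∑ p ∈ (Finset.range (x + 1)).filter Nat.Prime, Pool.Agent.Q28.BP.lg (a * Polynomial.X.eval (m : ℤ) ^ 2)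
      (b * Polynomial.X.eval (m : ℤ) ^ 3) p - 1 / 2 * Real.log (Real.log x)| ≤ ε * Real.log (Real.log x) := ⟨_, rfl⟩
  obtain ⟨P2, hP2⟩ : ∃ P : ℕ → Prop, P = fun (m : ℕ) => ∀ x : ℕ, X₂ ≤ x → Real.log x ≤ c * Real.sqrt r →
    |∑ p ∈ (Finset.range (x + 1)).filter Nat.Prime, Pool.Agent.Q28.BP.lg (a * (-Polynomial.X : Polynomial ℤ).eval (m : ℤ) ^ 2)
      (b * (-Polynomial.X : Polynomial ℤ).eval (m : ℤ) ^ 3) p - 1 / 2 * Real.log (Real.log x)| ≤ ε * Real.log (Real.log x) := ⟨_, rfl⟩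
  obtain ⟨P3, hP3⟩ : ∃ P : ℕ → Prop, P = fun (m : ℕ) => ∀ x : ℕ, X₃ ≤ x → Real.log x ≤ c * Real.sqrt r →
    |∑ p ∈ (Finset.range (x + 1)).filter Nat.Prime, Pool.Agent.Q28.BP.lg
      (a * (Polynomial.X ^ 3 + Polynomial.C a * Polynomial.X + Polynomial.C b : Polynomial ℤ).eval (m : ℤ) ^ 2)
      (b * (Polynomial.X ^ 3 + Polynomial.C a * Polynomial.X + Polynomial.C b : Polynomial ℤ).eval (m : ℤ) ^ 3) p -
        3 / 2 * Real.log (Real.log x)| ≤ ε * Real.log (Real.log x) := ⟨_, rfl⟩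
  obtain ⟨P4, hP4⟩ : ∃ P : ℕ → Prop, P = fun (m : ℕ) => ∀ x : ℕ, X₄ ≤ x → Real.log x ≤ c * Real.sqrt r →
    |∑ p ∈ (Finset.range (x + 1)).filter Nat.Prime, Pool.Agent.Q28.BP.lg
      (a * (-Polynomial.X ^ 3 - Polynomial.C a * Polynomial.X + Polynomial.C b : Polynomial ℤ).eval (m : ℤ) ^ 2)
      (b * (-Polynomial.X ^ 3 - Polynomial.C a * Polynomial.X + Polynomial.C b : Polynomial ℤ).eval (m : ℤ) ^ 3) p -
        3 / 2 * Real.log (Real.log x)| ≤ ε * Real.log (Real.log x) := ⟨_, rfl⟩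
  rw [← hP1] at g1
  rw [← hP2] at g2
  rw [← hP3] at g3
  rw [← hP4] at g4
  have hb1 := bad_and β K r N₀ g P1 P2
  have hb2 := bad_and β K r N₀ g P3 P4
  have hb3 := bad_and β K r N₀ g (fun m => P1 m ∧ P2 m) (fun m => P3 m ∧ P4 m)
  have hb4 : (bad β K r N₀ g (fun m => (P1 m ∧ P2 m) ∧ (P3 m ∧ P4 m)) : ℝ) ≤
      bad β K r N₀ g P1 + bad β K r N₀ g P2 + (bad β K r N₀ g P3 + bad β K r N₀ g P4) := by
    exact_mod_cast hb3.trans (Nat.add_le_add hb1 hb2)
  have hb5 : (bad β K r N₀ g (fun m => (P1 m ∧ P2 m) ∧ (P3 m ∧ P4 m)) : ℝ) ≤ η * (K.choose r : ℝ) := by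
    refine hb4.trans ?_
    linarith
  refine le_trans ?_ hb5
  apply Nat.cast_le.2
  apply bad_mono
  intro m hm x hx hxr
  obtain ⟨⟨q1, q2⟩, q3, q4⟩ := hm
  rw [hP1] at q1
  rw [hP2] at q2
  rw [hP3] at q3
  rw [hP4] at q4
  have r1 := q1 x (k1.trans hx) hxr
  have r2 := q2 x (k2.trans hx) hxr
  have r3 := q3 x (k3.trans hx) hxr
  have r4 := q4 x (k4.trans hx) hxr
  have hx16 : 16 ≤ x := h1.trans (k1.trans hx)
  simp only [Polynomial.eval_X] at r1
  simp only [Polynomial.eval_neg, Polynomial.eval_X] at r2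
  simp only [Polynomial.eval_add, Polynomial.eval_mul, Polynomial.eval_pow, Polynomial.eval_X, Polynomial.eval_C] at r3
  simp only [Polynomial.eval_add, Polynomial.eval_sub, Polynomial.eval_neg, Polynomial.eval_mul, Polynomial.eval_pow,
    Polynomial.eval_X, Polynomial.eval_C] at r4
  have e4 : -(m : ℤ) ^ 3 - a * m + b = (-m : ℤ) ^ 3 + a * (-m) + b := by ring
  rw [e4] at r4
  exact ⟨⟨grows_of hx16 r1, grows_of hx16 r2⟩, grows_of hx16 r3, grows_of hx16 r4⟩

end Pool.Agent.Results.MP_3283e1_nt.FewDigitTwists
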