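import Pool.Agent.Q115.RV.Final
import Pool.Agent.TH270.MS.GrowthF
import Pool.Agent.TH941.Newform

/-!
# The order of magnitude of the product of Birch and Swinnerton-Dyer

`E : y² = x³ + a x + b` is an elliptic curve over `ℚ`, `a, b ∈ ℤ`, `N_p` is the number of points modulo
`p` (with the point at infinity) and `P(x) = ∏_{p ≤ x, p ∤ 2Δ} N_p / p`.  `F` is the entire continuation
of the incomplete `L`-series, `r = ord_{s=1} F`, `f` is the newform of `E`.

The question is whether `P(x) ∼ A (log x)^r` with a positive constant.  Here the order of magnitude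
`P(x) ≍ (log x)^r` is shown to be EQUIVALENT to a ONE-SIDED condition, pointwise in `l`, for the ratios
`P(x^l) / P(x)`, where `l` ranges over an arbitrarily small set of positive measure:

for all `l` in some set `Λ ⊆ (1, ∞)` of positive measure `P(x^l) ≤ K(l) P(x)` for all large `x`;

and, if there are no REAL zeros `> 1`, to the opposite condition `P(x) ≤ K(l) P(x^l)`.  Nothing is supposed
about complex zeros, and no uniformity in `l`.  So there is a zero-one law: if `P(x) ≍ (log x)^r` fails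
then `limsup P(x^l) / P(x) = ∞` for almost all
`l > 1`.

Proof.  The condition for one `l` gives `P(x) ≤ (log x)^K`, hence the Riemann hypothesis for `E` (Landau).
Then `w(s) = log (P(x) / (T (log x)^r))`, `x = exp (exp s)`, tends to `0` in the mean over windows of fixed
length (Plancherel, `Pool.Agent.TH270`).  The set of the `a = log l` for which the bound holds with the
constant `n` for all `s ≥ n` is measurable (as `P` is a step function), and of positive measure for some
`n`.  For such `a` the value `w(s)` is compared with `w(s + a)` and with `w(s - a)`, and some of these are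
small.
-/

set_option autoImplicit false

namespace Pool.Agent.Results.MP_3283e1_nt.OrderOfMagnitude

open Filter Topology Classical MeasureTheory CongruenceSubgroup UpperHalfPlane Set
open scoped MatrixGroups

/-- `N_p`: the number of points of `y² = x³ + a x + b` modulo `p`, with the point at infinity. -/
noncomputable def numPoints (a b : ℤ) (p : ℕ) : ℕ :=
  Nat.card {q : ZMod p × ZMod p // q.2 ^ 2 = q.1 ^ 3 + (a : ZMod p) * q.1 + (b : ZMod p)} + 1

/-- `p` is a prime that does not divide `2 Δ`, where `Δ = -4 a³ - 27 b²`. -/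
def Good (a b : ℤ) (p : ℕ) : Prop :=
  p.Prime ∧ ¬ ((p : ℤ) ∣ 2 * (-4 * a ^ 3 - 27 * b ^ 2))

/-- The original Birch and Swinnerton-Dyer product `P(x) = ∏_{p ≤ x, p ∤ 2Δ} N_p / p`. -/
noncomputable def P (a b : ℤ) (x : ℝ) : ℝ :=
  ∏ p ∈ (Finset.range (⌊x⌋₊ + 1)).filter (Good a b), ((numPoints a b p : ℝ) / p)

/-- `F` is an entire function which for `Re s > 3/2` is the incomplete `L`-series
`∏_{p ∤ 2Δ} (1 - a_p p^{-s} + p^{1-2s})⁻¹`, `a_p = p + 1 - N_p`, of `y² = x³ + a x + b`. -/
def IsLSeries (a b : ℤ) (F : ℂ → ℂ) : Prop :=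
  Differentiable ℂ F ∧ ∀ s : ℂ, (3 : ℝ) / 2 < s.re →
    HasProd (fun p : ℕ => if Good a b p then
      (1 - ((p : ℂ) + 1 - (numPoints a b p : ℂ)) * (p : ℂ) ^ (-s) + (p : ℂ) ^ (1 - 2 * s))⁻¹ else 1)
      (F s)

/-- The `n`-th Fourier coefficient of `f`. -/
noncomputable def coef {N : ℕ} (f : CuspForm (Gamma0 N : Subgroup (GL (Fin 2) ℝ)) 2) (n : ℕ) : ℂ :=
  (qExpansion 1 f).coeff n

/-- `f ∈ S_2(Γ₀(N))` is the newform of the elliptic curve `E : y² = x³ + a x + b` of conductor `N`: the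
Fourier coefficients `c(n)` of `f` are real with `c(1) = 1`, they satisfy the Hecke relations
`c(mn) = c(m) c(n)` for coprime `m`, `n` and `c(p^(j+2)) = c(p) c(p^(j+1)) - p c(p^j)` (without the last
term if `p ∣ N`), `c(p) = a_p = p + 1 - N_p` for all primes `p ∤ 2Δ`, `|c(p)| ≤ 2 √p` for all
`p ∤ N` (Hasse) and `c(p) = 0, 1, -1` for `p ∣ N`. -/
structure IsNewformOf (a b : ℤ) (N : ℕ) (f : CuspForm (Gamma0 N : Subgroup (GL (Fin 2) ℝ)) 2) :
    Prop where
  one : coef f 1 = 1
  real : ∀ n, (coef f n).im = 0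
  mul : ∀ m n : ℕ, Nat.Coprime m n → coef f (m * n) = coef f m * coef f n
  pow : ∀ p j : ℕ, p.Prime → coef f (p ^ (j + 2)) = coef f p * coef f (p ^ (j + 1)) -
      (if p ∣ N then 0 else (p : ℂ) * coef f (p ^ j))
  points : ∀ p : ℕ, Good a b p → coef f p = (p : ℂ) + 1 - (numPoints a b p : ℂ)
  good : ∀ p : ℕ, p.Prime → ¬ p ∣ N → ‖coef f p‖ ≤ 2 * Real.sqrt p
  bad : ∀ p : ℕ, p.Prime → p ∣ N → coef f p = 0 ∨ coef f p = 1 ∨ coef f p = -1

/-- `F` has no real zeros `> 1`. -/
def NoRealZeros (F : ℂ → ℂ) : Prop := ∀ s : ℝ, 1 < s → F s ≠ 0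

/-- The property `p l` holds for all `l` in some set of real numbers `> 1` of positive (outer) Lebesgue
measure. -/
def OnPositive (p : ℝ → Prop) : Prop :=
  ∃ Λ : Set ℝ, Λ ⊆ Ioi 1 ∧ volume Λ ≠ 0 ∧ ∀ l ∈ Λ, p l

/-! ### Translation to the definitions of the imported files -/

variable {a b : ℤ}

theorem P_eq (x : ℝ) : P a b x = Pool.Agent.W263.BSD.bsdProduct a b x := by
  unfold P Pool.Agent.W263.BSD.bsdProduct numPoints Pool.Agent.W263.BSD.pointCount
  refine Finset.prod_congr rfl fun p _ => ?_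
  push_cast
  rfl

theorem numPoints_sub (p : ℕ) : (p : ℂ) + 1 - (numPoints a b p : ℂ) =
    (p : ℂ) - (Pool.Agent.W263.BSD.pointCount a b p : ℂ) := by
  unfold numPoints Pool.Agent.W263.BSD.pointCount
  push_cast
  ring

theorem isLSeries {F : ℂ → ℂ} (hF : IsLSeries a b F) :
    Pool.Agent.W263.BSD.IsLSeries a b F := by
  refine ⟨hF.1, fun s hs => ?_⟩
  have h := hF.2 s hs
  simp only [numPoints_sub] at h
  exact h

theorem hecke {N : ℕ} {f : CuspForm (Gamma0 N : Subgroup (GL (Fin 2) ℝ)) 2}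
    (hf : IsNewformOf a b N f) : Pool.Agent.TH941.Hecke f where
  one := hf.one
  real := hf.real
  mul := hf.mul
  pow := hf.pow
  good := hf.good
  bad := fun p hp h => by
    rcases hf.bad p hp h with h1 | h1 | h1
    · have h2 : ‖coef f p‖ ≤ 1 := by rw [h1]; simp
      exact h2
    · have h2 : ‖coef f p‖ ≤ 1 := by rw [h1]; simp
      exact h2
    · have h2 : ‖coef f p‖ ≤ 1 := by rw [h1]; simp
      exact h2

theorem hyp {N : ℕ} [NeZero N] {f : CuspForm (Gamma0 N : Subgroup (GL (Fin 2) ℝ)) 2}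
    (hΔ : 4 * a ^ 3 + 27 * b ^ 2 ≠ 0) (hf : IsNewformOf a b N f) {F : ℂ → ℂ} (hF : IsLSeries a b F) {r : ℕ}
    (hr : analyticOrderAt F 1 = r) : Pool.Agent.TH949.TX.Hyp a b F r where
  disc := hΔ
  rs := (hecke hf).rsSum_tendsto hΔ fun p hp => (hf.points p hp).trans (numPoints_sub p)
  gr := Pool.Agent.TH942.RZ.growth_newform hΔ (isLSeries hF) (hecke hf)
    fun p hp => (hf.points p hp).trans (numPoints_sub p)
  lser := isLSeries hF
  ord := hr

/-- **The order of magnitude.** Let `r` be the order of `F` at `1`. The following are equivalent: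
(1) `c (log x)^r ≤ P(x) ≤ C (log x)^r` for some `c > 0`, `C` and all large `x`;
(2) for all `l > 0` there are `c > 0` and `C` with `c P(x) ≤ P(x^l) ≤ C P(x)` for all large `x`;
(3) for all `l` in some set of positive measure in `(1, ∞)` there is a `K` with `P(x^l) ≤ K P(x)` for all
large `x`;
(4) `F` has no real zeros `> 1`, and for all `l` in some set of positive measure in `(1, ∞)` there is a `K`
with `P(x) ≤ K P(x^l)` for all large `x`. -/
theorem result (a b : ℤ) (hΔ : 4 * a ^ 3 + 27 * b ^ 2 ≠ 0) (F : ℂ → ℂ) (hF : IsLSeries a b F)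
    (N : ℕ) [NeZero N] (f : CuspForm (Gamma0 N : Subgroup (GL (Fin 2) ℝ)) 2)
    (hf : IsNewformOf a b N f) :
    ∃ r : ℕ, analyticOrderAt F 1 = r ∧
      List.TFAE [
        ∃ c C : ℝ, 0 < c ∧ ∀ᶠ x : ℝ in atTop,
          c * Real.log x ^ r ≤ P a b x ∧ P a b x ≤ C * Real.log x ^ r,
        ∀ l : ℝ, 0 < l → ∃ c C : ℝ, 0 < c ∧ ∀ᶠ x : ℝ in atTop,
          c * P a b x ≤ P a b (x ^ l) ∧ P a b (x ^ l) ≤ C * P a b x,
        OnPositive fun l => ∃ K : ℝ, ∀ᶠ x : ℝ in atTop, P a b (x ^ l) ≤ K * P a b x,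
        NoRealZeros F ∧
          OnPositive fun l => ∃ K : ℝ, ∀ᶠ x : ℝ in atTop, P a b x ≤ K * P a b (x ^ l)] := by
  have hF' := isLSeries hF
  obtain ⟨r, hr⟩ := Pool.Agent.W263.BSD.order_finite hF'
  have hp : ∀ p : ℕ, Pool.Agent.W263.BSD.GoodPrime a b p →
      coef f p = (p : ℂ) - (Pool.Agent.W263.BSD.pointCount a b p : ℂ) := fun p hp =>
    (hf.points p hp).trans (numPoints_sub p)
  obtain ⟨C₀, κ, hg⟩ := Pool.Agent.TH270.MS.EQ.growth_F hΔ hF' (hecke hf) hp
  have hrs := (hecke hf).rsSum_tendsto hΔ hp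
  refine ⟨r, hr, ?_⟩
  simp only [P_eq]
  exact Pool.Agent.Q115.RV.tfae_order hΔ hF' hrs (by norm_num : (0 : ℝ) < 1 / 8) hg hr

end Pool.Agent.Results.MP_3283e1_nt.OrderOfMagnitude
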