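import Pool.Agent.Q28.BP.Both

/-!
# The original products of Birch and Swinnerton-Dyer of almost all quadratic twists

`E : y² = x³ + a x + b` is an elliptic curve over `ℚ`, `a, b ∈ ℤ`, `E_d : y² = x³ + a d² x + b d³` is its
quadratic twist by `d`, that is `d y² = x³ + a x + b`, and

  `P_d(x) = ∏_{p ≤ x} #E_d(𝔽_p) / p`

(primes of bad reduction and `p = 2` left out) is the product which by Birch and Swinnerton-Dyer should
be asymptotic to `C (log x)^r`, `r` the rank of `E_d`, as `x → ∞`.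

We show: for all but `η T` of the `d` with `|d| ≤ T`

  `(log x)^(1/2 - ε) ≤ P_d(x) ≤ (log x)^(1/2 + ε)` for ALL `x` between `X₀` and `T^(1/10)`,

where `X₀` depends only on `E`, `ε` and `η`.  So the products of almost all twists grow like the square
root of `log x`, half-way between the two expected ranks `0` and `1`, at least until `x = T^(1/10)`; in
particular the asymptotic formulas of Birch and Swinnerton-Dyer for the individual twists cannot begin to
hold earlier.  For the thin family of the twists by the values `D(t) = t³ + a t + b` of the cubic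
polynomial itself, which have the rational point `(t D(t), D(t)²)`, the exponent is `3/2` instead: the
products of almost all members of this family are larger by the full factor `log x`.  All statements are
unconditional; that `f` is the newform of `E` is used through Rankin's and Selberg's theorem only.

The proof (`Pool.Agent.Q28.BP`): fourth moments of `∑_{u < p ≤ v} χ_d(p) a_p / p` over `d`, uniformly in
all intervals, a maximal inequality of Billingsley and Moricz, and the second order terms.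
-/

set_option autoImplicit false

namespace Pool.Agent.Results.MP_3283e1_nt.QuadraticTwistProducts

open Pool.Agent.W263.BSD (GoodPrime pointCount)
open Filter Topology CongruenceSubgroup UpperHalfPlane
open scoped MatrixGroups Classical

/-- The product of `(N_p + 1) / p` over the primes `p ≤ x`, `p ∤ 2Δ`, for `y² = x³ + a x + b`; here `N_p`
is the number of affine points modulo `p`, so `N_p + 1 = #E(𝔽_p)`. -/
noncomputable def product (a b : ℤ) (x : ℕ) : ℝ :=
  ∏ p ∈ (Finset.range (x + 1)).filter (GoodPrime a b), (((pointCount a b p : ℝ) + 1) / p)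

/-- The `n`-th Fourier coefficient of `f`. -/
noncomputable def coef {N : ℕ} (f : CuspForm (Gamma0 N : Subgroup (GL (Fin 2) ℝ)) 2) (n : ℕ) : ℂ :=
  (qExpansion 1 f).coeff n

/-- `f ∈ S_2(Γ₀(N))` is the newform of the elliptic curve `E : y² = x³ + a x + b` of conductor `N`: the
Fourier coefficients `c(n)` of `f` are real with `c(1) = 1`, they satisfy the Hecke relations
`c(mn) = c(m) c(n)` for coprime `m`, `n` and `c(p^(j+2)) = c(p) c(p^(j+1)) - p c(p^j)` (without the last
term if `p ∣ N`), `c(p) = a_p = p - N_p` (`N_p` affine points) for all primes `p ∤ 2Δ`, `|c(p)| ≤ 2 √p` for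
all `p ∤ N` (Hasse) and `c(p) = 0, 1, -1` for `p ∣ N`. (It exists by the modularity theorem.) -/
structure IsNewformOf (a b : ℤ) (N : ℕ) (f : CuspForm (Gamma0 N : Subgroup (GL (Fin 2) ℝ)) 2) :
    Prop where
  one : coef f 1 = 1
  real : ∀ n, (coef f n).im = 0
  mul : ∀ m n : ℕ, Nat.Coprime m n → coef f (m * n) = coef f m * coef f n
  pow : ∀ p j : ℕ, p.Prime → coef f (p ^ (j + 2)) = coef f p * coef f (p ^ (j + 1)) -
      (if p ∣ N then 0 else (p : ℂ) * coef f (p ^ j))
  points : ∀ p : ℕ, GoodPrime a b p → coef f p = (p : ℂ) - (pointCount a b p : ℂ)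
  good : ∀ p : ℕ, p.Prime → ¬ p ∣ N → ‖coef f p‖ ≤ 2 * Real.sqrt p
  bad : ∀ p : ℕ, p.Prime → p ∣ N → coef f p = 0 ∨ coef f p = 1 ∨ coef f p = -1

theorem hecke {a b : ℤ} {N : ℕ} {f : CuspForm (Gamma0 N : Subgroup (GL (Fin 2) ℝ)) 2}
    (hf : IsNewformOf a b N f) : Pool.Agent.TH941.Hecke f where
  one := hf.one
  real := hf.real
  mul := hf.mul
  pow := hf.pow
  good := hf.good
  bad := fun p hp h => by
    rcases hf.bad p hp h with h1 | h1 | h1
    · have h2 : ‖coef f p‖ ≤ 1 := by rw [h1]; simp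
      exact h2
    · have h2 : ‖coef f p‖ ≤ 1 := by rw [h1]; simp
      exact h2
    · have h2 : ‖coef f p‖ ≤ 1 := by rw [h1]; simp
      exact h2

/-- **The products of almost all quadratic twists.**  Let `E : y² = x³ + a x + b` be an elliptic curve
with newform `f`, `ε, η > 0`.  There is `X₀` such that for every `T`

1. all integers `d ≠ 0`, `|d| ≤ T`, with at most `η T` exceptions satisfy
  `(log x)^(1/2 - ε) ≤ P(x) ≤ (log x)^(1/2 + ε)` for all `x ≥ X₀` with `x^10 ≤ T`, where `P(x)` is the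
  product of the twist of `E` by `d`;
2. all integers `t`, `|t| ≤ T`, with at most `η T` exceptions satisfy
  `(log x)^(3/2 - ε) ≤ P(x) ≤ (log x)^(3/2 + ε)` for all `x ≥ X₀` with `x^10 ≤ T`, where `P(x)` is the
  product of the twist of `E` by `t³ + a t + b`. -/
theorem result (a b : ℤ) (hΔ : 4 * a ^ 3 + 27 * b ^ 2 ≠ 0) (N : ℕ) [NeZero N]
    (f : CuspForm (Gamma0 N : Subgroup (GL (Fin 2) ℝ)) 2) (hf : IsNewformOf a b N f)
    (ε η : ℝ) (hε : 0 < ε) (hη : 0 < η) :
    ∃ X₀ : ℕ, ∀ T : ℕ,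
      (∃ 𝓔 : Finset ℤ, (𝓔.card : ℝ) ≤ η * T ∧ ∀ d : ℤ, d ≠ 0 → |d| ≤ T → d ∉ 𝓔 →
        ∀ x : ℕ, X₀ ≤ x → x ^ 10 ≤ T →
          Real.log x ^ (1 / 2 - ε) ≤ product (a * d ^ 2) (b * d ^ 3) x ∧
          product (a * d ^ 2) (b * d ^ 3) x ≤ Real.log x ^ (1 / 2 + ε)) ∧
      (∃ 𝓔 : Finset ℤ, (𝓔.card : ℝ) ≤ η * T ∧ ∀ t : ℤ, |t| ≤ T → t ∉ 𝓔 →
        ∀ x : ℕ, X₀ ≤ x → x ^ 10 ≤ T →
          Real.log x ^ (3 / 2 - ε) ≤
            product (a * (t ^ 3 + a * t + b) ^ 2) (b * (t ^ 3 + a * t + b) ^ 3) x ∧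
          product (a * (t ^ 3 + a * t + b) ^ 2) (b * (t ^ 3 + a * t + b) ^ 3) x ≤
            Real.log x ^ (3 / 2 + ε)) := by
  have hrs : Tendsto (Pool.Agent.W263.BSD.rsSum a b) atTop (𝓝 0) :=
    (hecke hf).rsSum_tendsto hΔ fun p hp => hf.points p hp
  obtain ⟨X₁, h1, H1⟩ := Pool.Agent.Q28.BP.twists hΔ hrs hε hη
  obtain ⟨X₂, _, H2⟩ := Pool.Agent.Q28.BP.self_twists hΔ hrs hε hη
  refine ⟨max X₁ X₂, fun T => ⟨?_, ?_⟩⟩
  · obtain ⟨E, hE, H⟩ := H1 T
    refine ⟨E, hE, fun d _ hd hne x hx hxT => ?_⟩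
    have h2 := H d hd hne x ((le_max_left _ _).trans hx) hxT
    obtain ⟨h3, h4⟩ := Pool.Agent.Q28.BP.log_prod (a * d ^ 2) (b * d ^ 3) x
    beta_reduce at h2
    rw [← h4] at h2
    exact Pool.Agent.Q28.BP.pow_bounds h3 (h1.trans ((le_max_left _ _).trans hx)) rfl h2
  · obtain ⟨E, hE, H⟩ := H2 T
    refine ⟨E, hE, fun t ht hne x hx hxT => ?_⟩
    have h2 := H t ht hne x ((le_max_right _ _).trans hx) hxT
    obtain ⟨h3, h4⟩ := Pool.Agent.Q28.BP.log_prod (a * (t ^ 3 + a * t + b) ^ 2)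
      (b * (t ^ 3 + a * t + b) ^ 3) x
    beta_reduce at h2
    rw [← h4] at h2
    exact Pool.Agent.Q28.BP.pow_bounds h3 (h1.trans ((le_max_left _ _).trans hx)) rfl h2

end Pool.Agent.Results.MP_3283e1_nt.QuadraticTwistProducts
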