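import Pool.Agent.Results.MP_3283e1_nt.MeanSquareLaw
import Pool.Agent.Q8.MC.Asm

/-!
# The products of Birch and Swinnerton-Dyer over the primes with prescribed quadratic symbols

Let `E : y² = x³ + a x + b` be an elliptic curve over `ℚ`, `d_1, ..., d_k` non-zero integers, and for
`I ⊆ {1, ..., k}` let `E_I : y² = x³ + a d_I² x + b d_I³` be the quadratic twist by
`d_I = ∏_{i ∈ I} d_i`. For signs `ε_1, ..., ε_k` let `P_ε(x)` be the product over the primes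
`p ≤ x`, `p ∤ 2 Δ d_1 ⋯ d_k`,

* of `#E(𝔽_p)/p` if all the symbols `(d_i/p)` are `1`, and of `(#E(𝔽_(p²))/p²) ^ (1/2)` for the other
  primes, if `ε = 1`;
* of `(#E(𝔽_p)/#E'(𝔽_p)) ^ (1/2)` for the `p` with `(d_i/p) = ε_i` for all `i`, if `ε ≠ 1`; here `E'` is
  the quadratic twist of `E` over `𝔽_p`.

(So `P_1` is the product of Birch and Swinnerton-Dyer of `E` over `ℚ(√d_1, ..., √d_k)`, divided over
its primes and with a power `2 ^ (-k)`, if the degree is `2 ^ k`.) The sharp cut-off is used. It is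
shown that the asymptotics `P_ε(x) ∼ C_ε (log x) ^ (ρ_ε)` in logarithmic mean, for all `ε`, are
together equivalent to: the Riemann hypothesis for all the `E_I`, and
`∑ ε_I ρ_ε = ord_{s=1} L(E_I, s)`, and the corresponding formulas for the leading coefficients
(`ε_I = ∏_{i ∈ I} ε_i`).
-/

set_option autoImplicit false

namespace Pool.Agent.Results.MP_3283e1_nt.SplittingClassProducts

open Pool.Agent.W263.BSD Filter Topology Classical MeasureTheory Set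
open CongruenceSubgroup UpperHalfPlane
open scoped MatrixGroups
open Pool.Agent.Results.MP_3283e1_nt.MeanSquareLaw (IsNewformOf NoZeros)

variable {k : ℕ}

/-- `d_I`, the product of the `d_i`, `i ∈ I` -/
def dd (d : Fin k → ℤ) (I : Finset (Fin k)) : ℤ := ∏ i ∈ I, d i

/-- `p` is a prime that does not divide `2 Δ d_1 ⋯ d_k` -/
def Good (a b : ℤ) (d : Fin k → ℤ) (p : ℕ) : Prop :=
  p.Prime ∧ ¬ ((p : ℤ) ∣ 2 * (-4 * a ^ 3 - 27 * b ^ 2) * ∏ i, d i)

/-- the symbols `(d_i / p)` are the `ε_i` -/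
def InClass (d : Fin k → ℤ) (ε : Fin k → ℤˣ) (p : ℕ) : Prop := ∀ i, jacobiSym (d i) p = ε i

/-- the sign `ε_I = ∏_{i ∈ I} ε_i` -/
def sgn (ε : Fin k → ℤˣ) (I : Finset (Fin k)) : ℤ := ∏ i ∈ I, (ε i : ℤ)

/-- The product `P_ε(x)`. Here `pointCount a b p` is the number of affine points modulo `p`, so that
`#E(𝔽_p)` is `pointCount a b p + 1`, the number of points of the twist is
`2 p + 1 - pointCount a b p` and `#E(𝔽_(p²))` is the product of these two numbers. -/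
noncomputable def classProduct (a b : ℤ) (d : Fin k → ℤ) (ε : Fin k → ℤˣ) (x : ℝ) : ℝ :=
  ∏ p ∈ (Finset.range (⌊x⌋₊ + 1)).filter (Good a b d),
    if InClass d ε p then
      if ε = 1 then ((pointCount a b p : ℝ) + 1) / p
      else √(((pointCount a b p : ℝ) + 1) / (2 * p + 1 - pointCount a b p))
    else if ε = 1 then √(((pointCount a b p : ℝ) + 1) * (2 * p + 1 - pointCount a b p) / p ^ 2)
    else 1

/-- `P*_ε(x)`: this is `P_ε(x)` for `ε ≠ 1`, and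
`P*_1(x) = √2 P_1(x) exp (∑ (a_p² - 2p)/(2p²))`, the sum over the primes `√x < p ≤ x`,
`p ∤ 2 Δ d_1 ⋯ d_k`, `a_p = p - pointCount a b p`. -/
noncomputable def classStar (a b : ℤ) (d : Fin k → ℤ) (ε : Fin k → ℤˣ) (x : ℝ) : ℝ :=
  classProduct a b d ε x * if ε = 1 then √2 * Real.exp
    (∑ p ∈ (Finset.range (⌊x⌋₊ + 1)).filter (fun p => Good a b d p ∧ √x < p),
      (((p : ℝ) - pointCount a b p) ^ 2 - 2 * p) / (2 * (p : ℝ) ^ 2)) else 1

/-- `κ_I`: the product of `#E_I(𝔽_p)/p` over the primes `p` which divide `d_1 ⋯ d_k` but not the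
discriminant of `E_I`. -/
noncomputable def kap (a b : ℤ) (d : Fin k → ℤ) (I : Finset (Fin k)) : ℝ :=
  ∏ p ∈ (∏ i, d i).natAbs.primeFactors.filter (GoodPrime (a * dd d I ^ 2) (b * dd d I ^ 3)),
    ((pointCount (a * dd d I ^ 2) (b * dd d I ^ 3) p : ℝ) + 1) / p

/-- **The laws for the products over the classes of primes.** -/
theorem result {k : ℕ} (a b : ℤ) (hΔ : 4 * a ^ 3 + 27 * b ^ 2 ≠ 0) (d : Fin k → ℤ)
    (hd : ∀ i, d i ≠ 0) (F : Finset (Fin k) → ℂ → ℂ)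
    (hF : ∀ I, IsLSeries (a * dd d I ^ 2) (b * dd d I ^ 3) (F I))
    (N : Finset (Fin k) → ℕ) [∀ I, NeZero (N I)]
    (f : ∀ I, CuspForm (Gamma0 (N I) : Subgroup (GL (Fin 2) ℝ)) 2)
    (hf : ∀ I, IsNewformOf (a * dd d I ^ 2) (b * dd d I ^ 3) (N I) (f I)) :
    (∀ r : Finset (Fin k) → ℕ, (∀ I, NoZeros (F I) ∧ analyticOrderAt (F I) 1 = r I) ↔
      ∀ ε : Fin k → ℤˣ, ∃ B : ℝ, ∀ᶠ X : ℝ in atTop, ∫ x in Real.exp 1..X,
        |Real.log (classProduct a b d ε x) - (1 / 2 ^ k * ∑ I, (sgn ε I : ℝ) * r I) *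
          Real.log (Real.log x)| / x ≤ B * Real.log X) ∧
    ∀ ρ : (Fin k → ℤˣ) → ℝ,
      ((∀ I, NoZeros (F I) ∧ ∃ m : ℕ, ∑ ε : Fin k → ℤˣ, (sgn ε I : ℝ) * ρ ε = m ∧
          analyticOrderAt (F I) 1 = m) ↔
        ∀ ε : Fin k → ℤˣ, ∃ B : ℝ, ∀ᶠ X : ℝ in atTop, ∫ x in Real.exp 1..X,
          |Real.log (classProduct a b d ε x) - ρ ε * Real.log (Real.log x)| / x ≤
            B * Real.log X) ∧
      ∀ C : (Fin k → ℤˣ) → ℝ, (∀ ε, 0 < C ε) → List.TFAE [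
        ∀ I, NoZeros (F I) ∧ ∃ m : ℕ, ∑ ε : Fin k → ℤˣ, (sgn ε I : ℝ) * ρ ε = m ∧
          analyticOrderAt (F I) 1 = m ∧ iteratedDeriv m (F I) 1 / (m.factorial : ℂ) =
            ((√2 * Real.exp (m * Real.eulerMascheroniConstant) /
              (kap a b d I * ∏ ε : Fin k → ℤˣ, C ε ^ sgn ε I) : ℝ) : ℂ),
        ∀ ε : Fin k → ℤˣ, Tendsto (fun X : ℝ => (∫ x in Real.exp 1..X,
          |Real.log (classProduct a b d ε x / (C ε * Real.log x ^ ρ ε))| / x) / Real.log X)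
            atTop (𝓝 0),
        ∀ ε : Fin k → ℤˣ, Tendsto (fun X : ℝ => (∫ x in Real.exp 1..X,
          Real.log (classProduct a b d ε x / (C ε * Real.log x ^ ρ ε)) ^ 2 / x) / Real.log X)
            atTop (𝓝 0),
        ∀ ε : Fin k → ℤˣ, IntegrableOn (fun x : ℝ =>
          Real.log (classStar a b d ε x / (C ε * Real.log x ^ ρ ε)) ^ 2 / x)
            (Ioi (Real.exp 1))] := by
  have hI : ∀ I, 4 * (a * dd d I ^ 2) ^ 3 + 27 * (b * dd d I ^ 3) ^ 2 ≠ 0 := by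
    intro I
    have e : 4 * (a * dd d I ^ 2) ^ 3 + 27 * (b * dd d I ^ 3) ^ 2 =
        (4 * a ^ 3 + 27 * b ^ 2) * dd d I ^ 6 := by ring
    rw [e]
    exact mul_ne_zero hΔ (pow_ne_zero _ (Finset.prod_ne_zero_iff.2 fun i _ => hd i))
  have main : ∀ ρ : (Fin k → ℤˣ) → ℝ,
      (∀ I, NoZeros (F I) ∧ ∃ m : ℕ, ∑ ε : Fin k → ℤˣ, (sgn ε I : ℝ) * ρ ε = m ∧
          analyticOrderAt (F I) 1 = m) ↔
        ∀ ε : Fin k → ℤˣ, ∃ B : ℝ, ∀ᶠ X : ℝ in atTop, ∫ x in Real.exp 1..X,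
          |Real.log (classProduct a b d ε x) - ρ ε * Real.log (Real.log x)| / x ≤
            B * Real.log X := fun ρ =>
    Pool.Agent.Q8.MC.law0 (ρ := ρ) hd fun I =>
      (MeanSquareLaw.result _ _ (hI I) (F I) (hF I) (N I) (f I) (hf I)
        (Pool.Agent.Q8.MC.rI ρ I)).1
  refine ⟨fun r => ?_, fun ρ => ⟨main ρ, fun C hC => ?_⟩⟩
  · rw [← main]
    have e : ∀ I, ∑ ε : Fin k → ℤˣ, (sgn ε I : ℝ) *
        (1 / 2 ^ k * ∑ J : Finset (Fin k), (sgn ε J : ℝ) * r J) = r I :=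
      Pool.Agent.Q8.MC.sum_mean r
    refine forall_congr' fun I => and_congr_right fun _ => ?_
    rw [e I]
    constructor
    · intro h
      exact ⟨r I, rfl, h⟩
    · rintro ⟨m, h1, h2⟩
      have h3 : r I = m := by exact_mod_cast h1
      rw [h3]
      exact h2
  · exact Pool.Agent.Q8.MC.law (ρ := ρ) hd hC fun I =>
      (MeanSquareLaw.result _ _ (hI I) (F I) (hF I) (N I) (f I) (hf I)
        (Pool.Agent.Q8.MC.rI ρ I)).2 _ (Pool.Agent.Q8.MC.cI_pos hC I)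

end Pool.Agent.Results.MP_3283e1_nt.SplittingClassProducts
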